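import Mathlib
import Pool.Agent.MVO.StmtsA
import Pool.Agent.Helper65_MVO.TAC
import Pool.Agent.Helper77_MVO.OAA
import Pool.Agent.Helper34_MVO.OAR

set_option autoImplicit false

/-! Row TAA of the squad MVO: tightness of class a over `O1`. -/

namespace Pool.Agent.MVO.H78

open Pool.Agent.Helper14_MV Pool.Agent.Helper2_MV Pool.Agent.MVO
open Pool.Agent.MVO.H65.TacRow (rr_mono rr_trans clA_mono le_deg' mem_sp' max_of le_of_max other tb
  bmap_tb psh_tb deg_v2 sp_v2_max)
open Pool.Agent.MVO.H34 (deg_psh sp_psh sp_nonempty card_sp_le sp_sg deg_sg)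

namespace TaaRow

theorem bt_mono {β ρ : FIC} (h : β ≤ ρ) {k : ℕ} {a b : ℕ → ℕ} {i : ℕ} (hb : Bt β k a b i) :
    Bt ρ k a b i := fun e => rr_mono h (hb e)

theorem min_of {P : Finset ℕ} {m : ℕ} (hm : m ∈ P) (h : ∀ j ∈ P, m ≤ j) :
    P.min = (m : WithTop ℕ) := by
  apply le_antisymm
  · exact Finset.min_le hm
  · apply Finset.le_min
    intro j hj
    exact WithTop.coe_le_coe.2 (h j hj)

theorem psh_gt {K k : ℕ} {f A : ℕ → ℕ} (hf : BMap K k f) {t : ℕ} (ht : ¬ t ≤ k) :
    psh K f A t = 0 := by
  unfold psh
  apply Finset.sum_eq_zero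
  intro j hj
  rw [Finset.mem_range] at hj
  have := hf.le j (by omega)
  rw [if_neg (by omega)]

/-- push and add -/
theorem lift (hfaa : FaaStmt) {ρ : FIC} (hc : ClA ρ) {K k I : ℕ} {f A B c b : ℕ → ℕ}
    (hf : BMap K k f) (hA : 2 ≤ deg K A) (hB : 2 ≤ deg K B) (hI : I ≤ K)
    (hmA : (sp K A).max = (I : WithBot ℕ)) (hmB : (sp K B).max = (I : WithBot ℕ))
    (h : Bt ρ K A B I) (ha : ∀ j ≤ k, psh K f A j ≤ c j) (hb : ∀ j ≤ k, psh K f B j ≤ b j) :
    Bt ρ k c b (f I) := by
  obtain ⟨_, _, F3, F4, _, _⟩ := hfaa ρ hc
  have h1 := F4 K k f A B I hf hA hB hI hmA hmB h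
  have hmax : ∀ A : ℕ → ℕ, (sp K A).max = (I : WithBot ℕ) →
      (sp k (psh K f A)).max = (f I : WithBot ℕ) := by
    intro A hmA
    rw [sp_psh hf.le]
    apply max_of
    · exact Finset.mem_image_of_mem f (Finset.mem_of_max hmA)
    · intro j hj
      obtain ⟨t, ht, rfl⟩ := Finset.mem_image.1 hj
      exact hf.mono t I (le_of_max hmA ht) hI
  have h2 := F3 k (psh K f A) (psh K f B) (fun t => c t - psh K f A t)
    (fun t => b t - psh K f B t) (f I) (by rw [deg_psh hf.le]; exact hA)
    (by rw [deg_psh hf.le]; exact hB) (hf.le I hI) (hmax A hmA) (hmax B hmB) h1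
  have e : ∀ (A c : ℕ → ℕ), (∀ j ≤ k, psh K f A j ≤ c j) →
      (fun t => psh K f A t + (c t - psh K f A t)) = c := by
    intro A c hA
    funext t
    by_cases ht : t ≤ k
    · have := hA t ht
      omega
    · rw [psh_gt hf ht]
      omega
  rw [e A c ha, e B b hb] at h2
  exact h2

/-- push and add for functorial congruences -/
theorem step {R : FC} {K k : ℕ} {f A B a c : ℕ → ℕ} (h : R.R K A B) (hf : BMap K k f)
    (ha : ∀ j ≤ k, psh K f A j ≤ a j) (hc : ∀ j ≤ k, c j = psh K f B j + (a j - psh K f A j)) :
    R.R k a c := by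
  refine R.ext ?_ ?_ (R.add (fun t => a t - psh K f A t) (R.push k f hf h))
  · intro j hj
    have := ha j hj
    omega
  · intro j hj
    exact (hc j hj).symm

/-- the map of three blocks -/
def tb3 (p q r : ℕ) : ℕ → ℕ := fun t => if t = 0 then p else if t = 1 then q else r

theorem bmap_tb3 {k p q r : ℕ} (h : p ≤ q) (h' : q ≤ r) (hr : r ≤ k) : BMap 2 k (tb3 p q r) := by
  refine ⟨?_, ?_⟩
  · intro i j hij _
    unfold tb3
    by_cases h1 : i = 0
    · rw [if_pos h1]
      by_cases h2 : j = 0
      · rw [if_pos h2]
      · rw [if_neg h2]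
        by_cases h3 : j = 1
        · rw [if_pos h3]
          exact h
        · rw [if_neg h3]
          omega
    · rw [if_neg h1, if_neg (by omega : ¬ j = 0)]
      by_cases h2 : i = 1
      · rw [if_pos h2]
        by_cases h3 : j = 1
        · rw [if_pos h3]
        · rw [if_neg h3]
          exact h'
      · rw [if_neg h2, if_neg (by omega : ¬ j = 1)]
  · intro i _
    unfold tb3
    by_cases h1 : i = 0
    · rw [if_pos h1]
      omega
    · rw [if_neg h1]
      by_cases h2 : i = 1
      · rw [if_pos h2]
        omega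
      · rw [if_neg h2]
        exact hr

/-- a vector with (at most) three blocks -/
def w3 (p q r x y z : ℕ) : ℕ → ℕ :=
  fun j => (if j = p then x else 0) + (if j = q then y else 0) + (if j = r then z else 0)

theorem psh_tb3 (p q r x y z : ℕ) (j : ℕ) :
    psh 2 (tb3 p q r) (v3 x y z) j = w3 p q r x y z j := by
  unfold psh w3
  rw [Finset.sum_range_succ, Finset.sum_range_succ, Finset.sum_range_succ, Finset.sum_range_zero,
    Nat.zero_add]
  simp only [tb3, v3, if_true, one_ne_zero, if_false, eq_comm (a := j)]
  rfl

theorem deg_w3 {k p q r : ℕ} (hp : p ≤ k) (hq : q ≤ k) (hr : r ≤ k) (x y z : ℕ) :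
    deg k (w3 p q r x y z) = x + y + z := by
  unfold deg w3
  rw [Finset.sum_add_distrib, Finset.sum_add_distrib, Finset.sum_ite_eq', Finset.sum_ite_eq',
    Finset.sum_ite_eq', if_pos (Finset.mem_range.2 (by omega)),
    if_pos (Finset.mem_range.2 (by omega)), if_pos (Finset.mem_range.2 (by omega))]

theorem sp_w3_sub {k p q r x y z : ℕ} : sp k (w3 p q r x y z) ⊆ {p, q, r} := by
  intro j hj
  have h := (mem_sp'.1 hj).2
  rw [Finset.mem_insert, Finset.mem_insert, Finset.mem_singleton]
  by_contra hc
  push Not at hc
  apply h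
  unfold w3
  rw [if_neg hc.1, if_neg hc.2.1, if_neg hc.2.2]

theorem w3_min {k p q r x y z : ℕ} (hk : p ≤ k) (hq : p ≤ q) (hr : p ≤ r) (hx : 1 ≤ x) :
    (sp k (w3 p q r x y z)).min = (p : WithTop ℕ) := by
  apply min_of
  · rw [mem_sp']
    refine ⟨hk, ?_⟩
    unfold w3
    rw [if_pos rfl]
    omega
  · intro j hj
    have h := sp_w3_sub hj
    rw [Finset.mem_insert, Finset.mem_insert, Finset.mem_singleton] at h
    omega

theorem w3_max {k p q r x y z : ℕ} (hk : r ≤ k) (hq : q ≤ r) (hr : p ≤ r) (hz : 1 ≤ z) :
    (sp k (w3 p q r x y z)).max = (r : WithBot ℕ) := by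
  apply max_of
  · rw [mem_sp']
    refine ⟨hk, ?_⟩
    unfold w3
    rw [if_pos (rfl : r = r)]
    omega
  · intro j hj
    have h := sp_w3_sub hj
    rw [Finset.mem_insert, Finset.mem_insert, Finset.mem_singleton] at h
    omega

theorem deg_v3 (x y z : ℕ) : deg 2 (v3 x y z) = x + y + z := by
  unfold deg
  rw [Finset.sum_range_succ, Finset.sum_range_succ, Finset.sum_range_succ, Finset.sum_range_zero,
    Nat.zero_add]
  simp [v3]

theorem sp_v3_max (x y z : ℕ) (hz : z ≠ 0) :
    (sp 2 (v3 x y z)).max = ((2 : ℕ) : WithBot ℕ) := by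
  apply max_of
  · rw [mem_sp']
    exact ⟨le_refl 2, by simpa [v3] using hz⟩
  · intro j hj
    exact (mem_sp'.1 hj).1

/-- move one occurrence from `q` to `r` -/
def mv (a : ℕ → ℕ) (q r : ℕ) : ℕ → ℕ := fun j => if j = q then a q - 1 else if j = r then a r + 1
  else a j

theorem deg_mv {k : ℕ} {a : ℕ → ℕ} {q r : ℕ} (hq : q ≤ k) (hr : r ≤ k) (hqr : q ≠ r)
    (ha : 1 ≤ a q) : deg k (mv a q r) = deg k a := H77.sum_move k a hq hr hqr ha

/-- `II` moves an occurrence from an interior block to the first block -/
theorem step_II {R : FC} (h : II R) {k p q r : ℕ} {a : ℕ → ℕ} (hpq : p < q) (hqr : q < r)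
    (hr : r ≤ k) (hp1 : 1 ≤ a p) (hq1 : 1 ≤ a q) (hr1 : 1 ≤ a r) : R.R k a (mv a q p) := by
  refine step h (bmap_tb3 hpq.le hqr.le hr) ?_ ?_
  · intro j _
    rw [psh_tb3]
    unfold w3
    by_cases h1 : j = p
    · subst h1
      rw [if_pos rfl, if_neg (by omega), if_neg (by omega)]
      omega
    · rw [if_neg h1]
      by_cases h2 : j = q
      · subst h2
        rw [if_pos rfl, if_neg (by omega)]
        omega
      · rw [if_neg h2]
        by_cases h3 : j = r
        · subst h3
          rw [if_pos rfl]
          omega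
        · rw [if_neg h3]
          omega
  · intro j _
    rw [psh_tb3, psh_tb3]
    unfold w3 mv
    by_cases h1 : j = p
    · subst h1
      rw [if_pos rfl, if_pos rfl, if_pos rfl, if_neg (by omega), if_neg (by omega),
        if_neg (by omega), if_neg (by omega)]
      omega
    · rw [if_neg h1, if_neg h1, if_neg h1]
      by_cases h2 : j = q
      · subst h2
        rw [if_pos rfl, if_pos rfl, if_pos rfl, if_neg (by omega)]
        omega
      · rw [if_neg h2, if_neg h2, if_neg h2]
        by_cases h3 : j = r
        · subst h3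
          rw [if_pos rfl]
          omega
        · rw [if_neg h3]
          omega

/-- `O2` moves an occurrence to the last block -/
theorem step_O2 {R : FC} (h : O2 R) {k p q : ℕ} {a : ℕ → ℕ} (hpq : p < q)
    (hq : q ≤ k) (hp1 : 1 ≤ a p) (hq2 : 2 ≤ a q) : R.R k a (mv a p q) := by
  refine step h (bmap_tb hpq.le hq) ?_ ?_
  · intro j _
    rw [psh_tb]
    by_cases h1 : j = p
    · subst h1
      rw [if_pos rfl, if_neg (by omega)]
      omega
    · rw [if_neg h1]
      by_cases h2 : j = q
      · subst h2
        rw [if_pos rfl]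
        omega
      · rw [if_neg h2]
        omega
  · intro j _
    rw [psh_tb, psh_tb]
    unfold mv
    by_cases h1 : j = p
    · subst h1
      rw [if_pos rfl, if_pos rfl, if_pos rfl, if_neg (by omega), if_neg (by omega)]
      omega
    · rw [if_neg h1, if_neg h1, if_neg h1]
      by_cases h2 : j = q
      · subst h2
        rw [if_pos rfl, if_pos rfl, if_pos rfl]
        omega
      · rw [if_neg h2, if_neg h2, if_neg h2]
        omega

/-- with `II` the interior of the support can be removed -/
theorem red1 {R : FC} (h : II R) {k p r : ℕ} (hpr : p < r) (hr : r ≤ k) : ∀ (n : ℕ) (a : ℕ → ℕ),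
    deg k a - a p ≤ n → 1 ≤ a p → 1 ≤ a r → (∀ j ∈ sp k a, p ≤ j) → (∀ j ∈ sp k a, j ≤ r) →
      ∃ c : ℕ → ℕ, R.R k a c ∧ deg k c = deg k a ∧ sp k c = {p, r} := by
  intro n
  induction n with
  | zero =>
    intro a hn hp1 hr1 _ _
    exfalso
    have h1 : ∑ t ∈ ({p, r} : Finset ℕ), a t ≤ deg k a := by
      unfold deg
      apply Finset.sum_le_sum_of_subset
      intro t ht
      rw [Finset.mem_insert, Finset.mem_singleton] at ht
      rw [Finset.mem_range]
      omega
    rw [Finset.sum_pair (by omega)] at h1
    omega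
  | succ n ih =>
    intro a hn hp1 hr1 hmin hmax
    by_cases hint : ∃ q, p < q ∧ q < r ∧ 1 ≤ a q
    · obtain ⟨q, hpq, hqr, hq1⟩ := hint
      have h1 : R.R k a (mv a q p) := step_II h hpq hqr hr hp1 hq1 hr1
      have hd : deg k (mv a q p) = deg k a := deg_mv (by omega) (by omega) (by omega) hq1
      have hp : mv a q p p = a p + 1 := by
        unfold mv
        rw [if_neg (by omega), if_pos rfl]
      have hrr : mv a q p r = a r := by
        unfold mv
        rw [if_neg (by omega), if_neg (by omega)]
      have hsub : ∀ j ∈ sp k (mv a q p), j ∈ sp k a := by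
        intro j hj
        rw [mem_sp'] at hj ⊢
        refine ⟨hj.1, ?_⟩
        have h2 := hj.2
        unfold mv at h2
        by_cases h3 : j = q
        · rw [h3]
          omega
        · rw [if_neg h3] at h2
          by_cases h4 : j = p
          · rw [h4]
            omega
          · rw [if_neg h4] at h2
            exact h2
      obtain ⟨c, hc1, hc2, hc3⟩ := ih (mv a q p) (by rw [hd, hp]; omega) (by omega) (by omega)
        (fun j hj => hmin j (hsub j hj)) (fun j hj => hmax j (hsub j hj))
      exact ⟨c, R.trans h1 hc1, hc2.trans hd, hc3⟩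
    · refine ⟨a, R.refl k a, rfl, ?_⟩
      ext j
      rw [Finset.mem_insert, Finset.mem_singleton]
      constructor
      · intro hj
        have h1 := hmin j hj
        have h2 := hmax j hj
        by_contra h3
        apply hint
        refine ⟨j, by omega, by omega, ?_⟩
        have := (mem_sp'.1 hj).2
        omega
      · rintro (rfl | rfl)
        · rw [mem_sp']
          exact ⟨by omega, by omega⟩
        · rw [mem_sp']
          exact ⟨by omega, by omega⟩

/-- with `O1`, `O2`, `II` everything can be moved to the last block -/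
theorem red2 (hoaa : OaaStmt) {R : FC} (h : II R) (h1 : O1 R) (h2 : O2 R) {k r : ℕ} (hr : r ≤ k) :
    ∀ (n : ℕ) (a : ℕ → ℕ), deg k a - a r ≤ n → 3 ≤ deg k a → 1 ≤ a r →
      (∀ j ∈ sp k a, j ≤ r) → R.R k a (sg r (deg k a)) := by
  have hend : ∀ a : ℕ → ℕ, 3 ≤ deg k a → 1 ≤ a r → (∀ j ∈ sp k a, j ≤ r) →
      (¬ ∃ q, q < r ∧ 1 ≤ a q) → R.R k a (sg r (deg k a)) := by
    intro a hd hr1 hmax hint
    refine hoaa R k a _ (Or.inl h1) (deg_sg hr).symm ?_
    rw [sp_sg hr (by omega)]
    ext j
    rw [Finset.mem_singleton]
    constructor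
    · intro hj
      have h3 := hmax j hj
      by_contra h4
      apply hint
      refine ⟨j, by omega, ?_⟩
      have := (mem_sp'.1 hj).2
      omega
    · rintro rfl
      rw [mem_sp']
      exact ⟨hr, by omega⟩
  intro n
  induction n with
  | zero =>
    intro a hn hd hr1 hmax
    apply hend a hd hr1 hmax
    rintro ⟨p, hp, hp1⟩
    have h3 : ∑ t ∈ ({p, r} : Finset ℕ), a t ≤ deg k a := by
      unfold deg
      apply Finset.sum_le_sum_of_subset
      intro t ht
      rw [Finset.mem_insert, Finset.mem_singleton] at ht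
      rw [Finset.mem_range]
      omega
    rw [Finset.sum_pair (by omega)] at h3
    omega
  | succ n ih =>
    intro a hn hd hr1 hmax
    by_cases hint : ∃ q, q < r ∧ 1 ≤ a q
    swap
    · exact hend a hd hr1 hmax hint
    -- one step which moves an occurrence from a block `q < r` to `r`
    have hstep : ∃ q, q < r ∧ 1 ≤ a q ∧ R.R k a (mv a q r) := by
      obtain ⟨q, hq, hq1⟩ := hint
      by_cases hq2 : 2 ≤ a q
      · exact ⟨q, hq, hq1, H77.move R h1 (by omega) hr (by omega) hq2 hr1⟩
      by_cases hr2 : 2 ≤ a r
      · exact ⟨q, hq, hq1, step_O2 h2 hq hr hq1 hr2⟩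
      -- a third occurrence
      have hthird : ∃ t, t < r ∧ t ≠ q ∧ 1 ≤ a t := by
        by_contra hcon
        push Not at hcon
        have h3 : deg k a = ∑ t ∈ ({q, r} : Finset ℕ), a t := by
          unfold deg
          symm
          apply Finset.sum_subset
          · intro t ht
            rw [Finset.mem_insert, Finset.mem_singleton] at ht
            rw [Finset.mem_range]
            omega
          · intro t ht hn
            rw [Finset.mem_range] at ht
            rw [Finset.mem_insert, Finset.mem_singleton] at hn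
            push Not at hn
            by_contra h0
            have h4 := hmax t (mem_sp'.2 ⟨by omega, h0⟩)
            have h5 := hcon t (by omega) hn.1
            omega
        rw [Finset.sum_pair (by omega)] at h3
        omega
      -- two blocks `u < v < r` with an occurrence each
      have huv : ∃ u v, u < v ∧ v < r ∧ 1 ≤ a u ∧ 1 ≤ a v := by
        obtain ⟨t, ht, htq, ht1⟩ := hthird
        rcases Nat.lt_or_gt_of_ne htq with h3 | h3
        · exact ⟨t, q, h3, hq, ht1, hq1⟩
        · exact ⟨q, t, h3, ht, hq1, ht1⟩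
      obtain ⟨u, v, huv, hv, hu1, hv1⟩ := huv
      refine ⟨v, hv, hv1, ?_⟩
      have e1 := step_II h huv hv hr hu1 hv1 hr1
      have hu2 : 2 ≤ mv a v u u := by
        unfold mv
        rw [if_neg (by omega), if_pos rfl]
        omega
      have hrr : 1 ≤ mv a v u r := by
        unfold mv
        rw [if_neg (by omega), if_neg (by omega)]
        exact hr1
      have e2 : R.R k (mv a v u) (mv (mv a v u) u r) :=
        H77.move R h1 (by omega) hr (by omega) hu2 hrr
      refine R.trans e1 (R.ext (fun _ _ => rfl) ?_ e2)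
      intro j _
      unfold mv
      by_cases h3 : j = u
      · subst h3
        rw [if_pos rfl, if_neg (by omega), if_pos rfl, if_neg (by omega), if_neg (by omega)]
        omega
      · rw [if_neg h3]
        by_cases h4 : j = v
        · subst h4
          rw [if_neg (by omega), if_pos rfl, if_pos rfl]
        · rw [if_neg h4, if_neg h4]
          by_cases h5 : j = r
          · subst h5
            rw [if_pos rfl, if_neg (by omega), if_neg (by omega), if_pos rfl]
          · rw [if_neg h5, if_neg h5, if_neg h3]
    obtain ⟨q, hq, hq1, hR⟩ := hstep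
    have hdm : deg k (mv a q r) = deg k a := deg_mv (by omega) hr (by omega) hq1
    have hmr : mv a q r r = a r + 1 := by
      unfold mv
      rw [if_neg (by omega), if_pos rfl]
    have h3 := ih (mv a q r) (by rw [hdm, hmr]; omega) (by omega) (by omega) (by
      intro j hj
      by_cases h4 : j = r
      · omega
      · apply hmax
        rw [mem_sp'] at hj ⊢
        refine ⟨hj.1, ?_⟩
        have h5 := hj.2
        unfold mv at h5
        by_cases h6 : j = q
        · rw [h6]
          omega
        · rw [if_neg h6, if_neg h4] at h5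
          exact h5)
    rw [hdm] at h3
    exact R.trans hR h3

theorem exists_min {P : Finset ℕ} (h : P.Nonempty) : ∃ m ∈ P, ∀ j ∈ P, m ≤ j :=
  ⟨P.min' h, Finset.min'_mem P h, fun j hj => Finset.min'_le P j hj⟩

/-- bounds for the pushed vectors -/
theorem w3_le {p q r x y z : ℕ} {c : ℕ → ℕ} (h1 : p < q) (h2 : q < r) (hp : x ≤ c p)
    (hq : y ≤ c q) (hr : z ≤ c r) (j : ℕ) : w3 p q r x y z j ≤ c j := by
  unfold w3
  by_cases h3 : j = p
  · subst h3
    rw [if_pos rfl, if_neg (by omega), if_neg (by omega)]
    omega
  · rw [if_neg h3]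
    by_cases h4 : j = q
    · subst h4
      rw [if_pos rfl, if_neg (by omega)]
      omega
    · rw [if_neg h4]
      by_cases h5 : j = r
      · subst h5
        rw [if_pos rfl]
        omega
      · rw [if_neg h5]
        omega

theorem w2_le {p r x z : ℕ} {c : ℕ → ℕ} (h1 : p < r) (hp : x ≤ c p) (hr : z ≤ c r) (j : ℕ) :
    (if j = p then x else 0) + (if j = r then z else 0) ≤ c j := by
  by_cases h3 : j = p
  · subst h3
    rw [if_pos rfl, if_neg (by omega)]
    omega
  · rw [if_neg h3]
    by_cases h5 : j = r
    · subst h5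
      rw [if_pos rfl]
      omega
    · rw [if_neg h5]
      omega

end TaaRow

open TaaRow

/-- **TAA** -/
theorem taa (hoaa : OaaStmt) (hoar : OarStmt) (hfaa : FaaStmt) : TaaStmt := by
  intro β hcl hr0 ho1 hcla ρ hle _ k a a' hd hdd hL
  by_cases hLβ : L1 β k a a'
  · exact Or.inl hLβ
  right
  intro b e hb i hi
  revert e
  change Bt ρ k a b i
  have hclρ : ClA ρ := clA_mono hle hcl
  have hr0ρ : R0 ρ := rr_mono hle hr0
  have ho1ρ : O1 (FC.ofFIC ρ) := rr_mono hle ho1
  obtain ⟨F0, F2, _, _, F5, F6⟩ := hfaa ρ hclρ
  have hS : sp k a ≠ sp k a' := fun h => hLβ (hoaa (FC.ofFIC β) k a a' (Or.inl ho1) hdd h)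
  by_cases hmax : (sp k a).max = (i : WithBot ℕ) ∧ (sp k b).max = (i : WithBot ℕ)
  swap
  · exact F0 k a b i hd hb hi hmax
  obtain ⟨hma, hmb⟩ := hmax
  by_cases hma' : (sp k a').max = (i : WithBot ℕ)
  swap
  · exact F2 k a a' b i hL (F0 k a' b i (by omega) hb hi (fun h => hma' h.1))
  have hia : i ∈ sp k a := Finset.mem_of_max hma
  have hia' : i ∈ sp k a' := Finset.mem_of_max hma'
  have hbi : b i ≠ 0 := (mem_sp'.1 (Finset.mem_of_max hmb)).2
  obtain ⟨hIP, hBP, _⟩ := hoar (FC.ofFIC ρ) k a a' (Or.inl ho1ρ) hd hdd hL hS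
  have hc1 : 1 ≤ (sp k a).card := Finset.card_pos.2 ⟨_, hia⟩
  have hc1' : 1 ≤ (sp k a').card := Finset.card_pos.2 ⟨_, hia'⟩
  have hsing : ∀ {P : Finset ℕ}, P.card = 1 → i ∈ P → P = {i} := by
    intro P hP hmP
    obtain ⟨x, hx⟩ := Finset.card_eq_one.1 hP
    rw [hx] at hmP ⊢
    rw [Finset.mem_singleton.1 hmP]
  have hns : ¬ ((sp k a).card = 1 ∧ (sp k a').card = 1) := by
    rintro ⟨h5, h6⟩
    exact hS ((hsing h5 hia).trans (hsing h6 hia').symm)
  have hcd : (sp k a).card ≤ deg k a := card_sp_le k a
  have hcd' : (sp k a').card ≤ deg k a' := card_sp_le k a'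
  obtain ⟨N, hN⟩ : ∃ N, N = max (sp k a).card (sp k a').card := ⟨_, rfl⟩
  rw [← hN] at hIP
  have hN2 : 2 ≤ N := by
    have h5 := le_max_left (sp k a).card (sp k a').card
    have h6 := le_max_right (sp k a).card (sp k a').card
    omega
  have hNd : N ≤ deg k a := by
    rw [hN]
    exact max_le hcd (by omega)
  obtain ⟨d, hdeq⟩ : ∃ d, d = deg k a := ⟨_, rfl⟩
  rw [← hdeq] at hd hIP hBP hNd hcd
  obtain ⟨p, hp, hpmin⟩ := exists_min ⟨i, hia⟩
  have hpi : p ≤ i := hpmin i hia
  have hmina : (sp k a).min = (p : WithTop ℕ) := min_of hp hpmin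
  by_cases hmin : (sp k a).min = (sp k a').min
  · -- case 1
    have hp' : p ∈ sp k a' := by
      rw [hmina] at hmin
      exact Finset.mem_of_min hmin.symm
    have hpmin' : ∀ j ∈ sp k a', p ≤ j := by
      intro j hj
      have h5 := Finset.min_le hj
      rw [← hmin, hmina] at h5
      exact WithTop.coe_le_coe.1 h5
    have hmaxa : ∀ j ∈ sp k a, j ≤ i := fun j hj => le_of_max hma hj
    have hmaxa' : ∀ j ∈ sp k a', j ≤ i := fun j hj => le_of_max hma' hj
    have hplt : p < i := by
      rcases hpi.lt_or_eq with h | h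
      · exact h
      · exfalso
        apply hS
        have : ∀ {P : Finset ℕ}, i ∈ P → (∀ j ∈ P, p ≤ j) → (∀ j ∈ P, j ≤ i) → P = {i} := by
          intro P h5 h6 h7
          ext j
          rw [Finset.mem_singleton]
          constructor
          · intro hj
            have h8 := h6 j hj
            have h9 := h7 j hj
            omega
          · rintro rfl
            exact h5
        rw [this hia hpmin hmaxa, this hia' hpmin' hmaxa']
    have hN3 : 3 ≤ N := by
      by_contra hlt
      apply hS
      have h5 := le_max_left (sp k a).card (sp k a').card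
      have h6 := le_max_right (sp k a).card (sp k a').card
      have : ∀ {P : Finset ℕ}, i ∈ P → p ∈ P → P.card ≤ 2 → ({p, i} : Finset ℕ) = P := by
        intro P h7 h8 h9
        apply Finset.eq_of_subset_of_card_le
        · intro j hj
          rw [Finset.mem_insert, Finset.mem_singleton] at hj
          rcases hj with rfl | rfl
          · exact h8
          · exact h7
        · rw [Finset.card_pair (by omega)]
          exact h9
      rw [← this hia hp (by omega), ← this hia' hp' (by omega)]
    have hd3 : 3 ≤ d := by omega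
    have hII : ¬ II (FC.ofFIC β) := by
      intro hII
      apply hLβ
      have h5 := (mem_sp'.1 hp).2
      have h6 := (mem_sp'.1 hia).2
      have h7 := (mem_sp'.1 hp').2
      have h8 := (mem_sp'.1 hia').2
      obtain ⟨c, e1, e2, e3⟩ := red1 hII hplt hi _ a le_rfl (by omega) (by omega) hpmin hmaxa
      obtain ⟨c', e1', e2', e3'⟩ := red1 hII hplt hi _ a' le_rfl (by omega) (by omega) hpmin'
        hmaxa'
      have e4 := hoaa (FC.ofFIC β) k c c' (Or.inl ho1) (by omega) (by rw [e3, e3'])
      exact (FC.ofFIC β).trans e1 ((FC.ofFIC β).trans e4 ((FC.ofFIC β).symm e1'))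
    have g1 : Bt ρ 2 (v3 0 2 1) (v3 1 0 1) 2 := bt_mono hle (hcla.2.1.resolve_left hII)
    have g2 := hcla.2.2.resolve_left hII
    have toc : ∀ q x y z, p ≤ q → q ≤ i → 1 ≤ x → 1 ≤ z → x + y + z = d →
        L1 ρ k a (w3 p q i x y z) := by
      intro q x y z hq1 hq2 hx hz hs
      refine hIP k a _ hdeq.symm ?_ ?_ ?_ ?_ ?_
      · rw [deg_w3 (by omega) (by omega) hi]
        exact hs
      · rw [hN]
        exact le_max_left _ _
      · refine (Finset.card_le_card sp_w3_sub).trans (Finset.card_le_three.trans hN3)
      · rw [hmina, w3_min (by omega) hq1 hpi hx]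
      · rw [hma, w3_max hi hq2 hpi hz]
    by_cases hb2 : 2 ≤ b i
    · refine F2 k a _ b i (toc p 1 0 (d - 1) le_rfl hpi le_rfl (by omega) (by omega))
        (F6 hr0ρ k _ b i hi ?_ hb2)
      unfold w3
      rw [if_pos (rfl : i = i), if_neg (by omega : ¬ i = p)]
      omega
    obtain ⟨j, hj, hbj⟩ := other hmb hb (by omega)
    have hc2 : w3 p p i (d - 1) 0 1 p = d - 1 := by
      unfold w3
      rw [if_pos rfl, if_pos rfl, if_neg (by omega)]
      omega
    have hc3 : w3 p p i (d - 1) 0 1 i = 1 := by
      unfold w3
      rw [if_neg (by omega), if_neg (by omega), if_pos rfl]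
    rcases Nat.lt_or_ge p j with hpj | hpj
    · rcases g2 with g2 | h2
      · have g2 : Bt ρ 2 (v3 2 0 1) (v3 0 1 1) 2 := bt_mono hle g2
        refine F2 k a _ b i (toc p (d - 1) 0 1 le_rfl hpi (by omega) le_rfl (by omega)) ?_
        have hf := bmap_tb3 hpj.le hj.le hi
        have h5 := lift hfaa hclρ (c := w3 p p i (d - 1) 0 1) (b := b) hf
          (by rw [deg_v3]; omega) (by rw [deg_v3]) le_rfl (sp_v3_max 2 0 1 (by omega))
          (sp_v3_max 0 1 1 (by omega)) g2
          (fun t _ => by
            rw [psh_tb3]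
            exact w3_le hpj hj (by rw [hc2]; omega) (Nat.zero_le _) (by rw [hc3]) t)
          (fun t _ => by
            rw [psh_tb3]
            exact w3_le hpj hj (Nat.zero_le _) hbj (by omega) t)
        exact h5
      · have h2 : Bt ρ 2 (v3 1 1 1) (v3 0 1 1) 2 := bt_mono hle h2
        refine F2 k a _ b i (toc j (d - 2) 1 1 hpj.le hj.le (by omega) le_rfl (by omega)) ?_
        have hf := bmap_tb3 hpj.le hj.le hi
        have h5 := lift hfaa hclρ (c := w3 p j i (d - 2) 1 1) (b := b) hf
          (by rw [deg_v3]; omega) (by rw [deg_v3]) le_rfl (sp_v3_max 1 1 1 (by omega))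
          (sp_v3_max 0 1 1 (by omega)) h2
          (fun t _ => by
            rw [psh_tb3]
            unfold w3
            by_cases ht : t = p
            · rw [if_pos ht, if_pos ht]
              omega
            · rw [if_neg ht, if_neg ht])
          (fun t _ => by
            rw [psh_tb3]
            exact w3_le hpj hj (Nat.zero_le _) hbj (by omega) t)
        exact h5
    · refine F2 k a _ b i (toc p (d - 1) 0 1 le_rfl hpi (by omega) le_rfl (by omega)) ?_
      have hf := bmap_tb3 hpj hpi hi
      have h5 := lift hfaa hclρ (c := w3 p p i (d - 1) 0 1) (b := b) hf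
        (by rw [deg_v3]; omega) (by rw [deg_v3]) le_rfl (sp_v3_max 0 2 1 (by omega))
        (sp_v3_max 1 0 1 (by omega)) g1
        (fun t _ => by
          rw [psh_tb3]
          unfold w3
          by_cases ht : t = p
          · rw [ht, if_pos rfl, if_pos rfl, if_pos rfl, if_neg (by omega : ¬ p = i)]
            by_cases hjp : p = j
            · rw [if_pos hjp]
              omega
            · rw [if_neg hjp]
              omega
          · rw [if_neg ht, if_neg ht, if_neg ht]
            by_cases hjt : t = j
            · rw [if_pos hjt]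
            · rw [if_neg hjt])
        (fun t _ => by
          rw [psh_tb3]
          have h6 := w2_le (c := b) (x := 1) (z := 1) hj hbj (by omega) t
          unfold w3
          by_cases ht : t = p
          · rw [if_pos ht]
            omega
          · rw [if_neg ht]
            omega)
      exact h5
  · -- case 2
    have hB := hBP hmin hns
    have toc : ∀ c, deg k c = d → (sp k c).card ≤ 2 → (sp k c).max = (i : WithBot ℕ) →
        L1 ρ k a c := by
      intro c e1 e2 e3
      have hdw : deg k (w3 p i i (d - 1) 1 0) = d := by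
        rw [deg_w3 (by omega) hi hi]
        omega
      have hmw : (sp k (w3 p i i (d - 1) 1 0)).max = (i : WithBot ℕ) := by
        apply max_of
        · rw [mem_sp']
          refine ⟨hi, ?_⟩
          unfold w3
          rw [if_pos (rfl : i = i)]
          omega
        · intro j hj
          have h := sp_w3_sub hj
          rw [Finset.mem_insert, Finset.mem_insert, Finset.mem_singleton] at h
          omega
      have hcw : (sp k (w3 p i i (d - 1) 1 0)).card ≤ 2 := by
        have h5 : sp k (w3 p i i (d - 1) 1 0) ⊆ {p, i} := by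
          intro j hj
          have h := sp_w3_sub hj
          rw [Finset.mem_insert, Finset.mem_insert, Finset.mem_singleton] at h
          rw [Finset.mem_insert, Finset.mem_singleton]
          omega
        exact (Finset.card_le_card h5).trans Finset.card_le_two
      refine (FC.ofFIC ρ).trans (hIP k a (w3 p i i (d - 1) 1 0) hdeq.symm hdw ?_ (by omega) ?_ ?_)
        (hB k _ c hdw e1 hcw e2 (hmw.trans e3.symm))
      · rw [hN]
        exact le_max_left _ _
      · rw [hmina, w3_min (by omega) hpi hpi (by omega)]
      · rw [hma, hmw]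
    have hsgi : sg i d i = d := by
      unfold sg
      rw [if_pos rfl]
    have hsg : L1 ρ k a (sg i d) := by
      apply toc
      · exact deg_sg hi
      · rw [sp_sg hi (by omega), Finset.card_singleton]
        omega
      · rw [sp_sg hi (by omega), Finset.max_singleton]
        rfl
    by_cases hb2 : 2 ≤ b i
    · exact F2 k a _ b i hsg (F6 hr0ρ k _ b i hi (by omega) hb2)
    obtain ⟨j, hj, hbj⟩ := other hmb hb (by omega)
    by_cases hd2 : d = 2
    · -- degree 2
      rw [hd2] at hsg hB hsgi
      refine F2 k a _ b i hsg ?_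
      have hR : (FC.ofFIC ρ).R 1 (v2 1 1) (v2 0 2) := by
        apply hB 1 (v2 1 1) (v2 0 2)
        · rw [deg_v2]
        · rw [deg_v2]
        · exact (Finset.card_le_card (Finset.filter_subset _ _)).trans (by rw [Finset.card_range])
        · exact (Finset.card_le_card (Finset.filter_subset _ _)).trans (by rw [Finset.card_range])
        · rw [sp_v2_max _ _ (by omega), sp_v2_max _ _ (by omega)]
      have hbR : L1 ρ k b (mv b j i) := by
        refine step hR (bmap_tb hj.le hi) ?_ ?_
        · intro t _
          rw [psh_tb]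
          exact w2_le hj hbj (by omega) t
        · intro t _
          rw [psh_tb, psh_tb]
          unfold mv
          by_cases h1 : t = j
          · subst h1
            rw [if_pos rfl, if_pos rfl, if_pos rfl, if_neg (by omega), if_neg (by omega)]
            omega
          · rw [if_neg h1, if_neg h1, if_neg h1]
            by_cases h2 : t = i
            · subst h2
              rw [if_pos rfl, if_pos rfl, if_pos rfl]
              omega
            · rw [if_neg h2, if_neg h2, if_neg h2]
              omega
      have h8 := F6 hr0ρ k (sg i 2) (mv b j i) i hi (by omega) (by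
        unfold mv
        rw [if_neg (by omega), if_pos rfl]
        omega)
      exact F5 k _ _ i (F2 k b _ _ i hbR (F5 k _ _ i h8))
    have hd3 : 3 ≤ d := by omega
    have claim : Bt β 1 (v2 0 3) (v2 1 1) 1 ∨ Bt β 1 (v2 1 2) (v2 1 1) 1 := by
      rcases hcla.1 with h5 | h5 | h5
      · right
        have hII : ¬ II (FC.ofFIC β) := by
          intro hII
          apply hLβ
          have h6 := (mem_sp'.1 hia).2
          have h8 := (mem_sp'.1 hia').2
          have e1 := red2 hoaa hII ho1 h5 hi _ a le_rfl (by omega) (by omega)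
            (fun j hj => le_of_max hma hj)
          have e2 := red2 hoaa hII ho1 h5 hi _ a' le_rfl (by omega) (by omega)
            (fun j hj => le_of_max hma' hj)
          rw [← hdd] at e2
          exact (FC.ofFIC β).trans e1 ((FC.ofFIC β).symm e2)
        have g1 : Bt β 2 (v3 0 2 1) (v3 1 0 1) 2 := hcla.2.1.resolve_left hII
        have h7 := lift hfaa hcl (c := v2 2 1) (b := v2 1 1)
          (bmap_tb3 (k := 1) (le_refl 0) (Nat.zero_le 1) le_rfl)
          (by rw [deg_v3]; omega) (by rw [deg_v3]) le_rfl (sp_v3_max 0 2 1 (by omega))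
          (sp_v3_max 1 0 1 (by omega)) g1
          (fun t ht => by
            rw [psh_tb3]
            interval_cases t <;> simp [w3, v2])
          (fun t ht => by
            rw [psh_tb3]
            interval_cases t <;> simp [w3, v2])
        obtain ⟨_, G2, _⟩ := hfaa β hcl
        exact G2 1 _ _ _ 1 ((FC.ofFIC β).symm ho1) h7
      · exact Or.inl h5
      · exact Or.inr h5
    rcases claim with hs | hs
    · have hs : Bt ρ 1 (v2 0 3) (v2 1 1) 1 := bt_mono hle hs
      refine F2 k a _ b i hsg ?_
      have h5 := lift hfaa hclρ (c := sg i d) (b := b) (bmap_tb hj.le hi)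
        (by rw [deg_v2]; omega) (by rw [deg_v2]) le_rfl (sp_v2_max 0 3 (by omega))
        (sp_v2_max 1 1 (by omega)) hs
        (fun t _ => by
          rw [psh_tb]
          exact w2_le hj (Nat.zero_le _) (by rw [hsgi]; exact hd3) t)
        (fun t _ => by
          rw [psh_tb]
          exact w2_le hj hbj (by omega) t)
      exact h5
    · have hs : Bt ρ 1 (v2 1 2) (v2 1 1) 1 := bt_mono hle hs
      have hcj : L1 ρ k a (w3 j i i 1 (d - 1) 0) := by
        apply toc
        · rw [deg_w3 (by omega) hi hi]
          omega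
        · have h5 : sp k (w3 j i i 1 (d - 1) 0) ⊆ {j, i} := by
            intro t ht
            have h := sp_w3_sub ht
            rw [Finset.mem_insert, Finset.mem_insert, Finset.mem_singleton] at h
            rw [Finset.mem_insert, Finset.mem_singleton]
            omega
          exact (Finset.card_le_card h5).trans Finset.card_le_two
        · apply max_of
          · rw [mem_sp']
            refine ⟨hi, ?_⟩
            unfold w3
            rw [if_pos (rfl : i = i)]
            omega
          · intro t ht
            have h := sp_w3_sub ht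
            rw [Finset.mem_insert, Finset.mem_insert, Finset.mem_singleton] at h
            omega
      refine F2 k a _ b i hcj ?_
      have h5 := lift hfaa hclρ (c := w3 j i i 1 (d - 1) 0) (b := b) (bmap_tb hj.le hi)
        (by rw [deg_v2]; omega) (by rw [deg_v2]) le_rfl (sp_v2_max 1 2 (by omega))
        (sp_v2_max 1 1 (by omega)) hs
        (fun t _ => by
          rw [psh_tb]
          refine w2_le hj ?_ ?_ t
          · unfold w3
            rw [if_pos rfl]
            omega
          · unfold w3
            rw [if_pos (rfl : i = i)]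
            omega)
        (fun t _ => by
          rw [psh_tb]
          exact w2_le hj hbj (by omega) t)
      exact h5

end Pool.Agent.MVO.H78
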